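import Pool.Agent.ColorRef.Poly
import Pool.Agent.ColorLog.Core

/-!
Hardness of refuting `k`-colourability of `G(n,1/2)` by polynomials of degree at most
`c log n / log log n`, for every `k ≥ √n`.
-/

namespace Pool.Agent.Results.MP_91303d_lc.LogDegree

open Filter Finset BigOperators
open scoped Classical Topology
open Pool.Agent.ColorRef
open Pool.Agent.ColorLog

/-- The vector of edge indicators of a graph on `Fin n`; `Pair n` is the set of pairs
`(u, v)` of vertices with `u < v`. -/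
noncomputable def edgeVec {n : ℕ} (X : SimpleGraph (Fin n)) : Pair n → ℝ :=
  fun e => if X.Adj e.1.1 e.1.2 then 1 else 0

/-- Expectation over `G(n,1/2)`: the average over all graphs on `Fin n`. -/
noncomputable def expG (n : ℕ) (g : SimpleGraph (Fin n) → ℝ) : ℝ :=
  (∑ X : SimpleGraph (Fin n), g X) / (Fintype.card (SimpleGraph (Fin n)) : ℝ)

/-- The value of a polynomial in the edge indicators at a graph. -/
noncomputable def val {n : ℕ} (f : MvPolynomial (Pair n) ℝ) (X : SimpleGraph (Fin n)) : ℝ :=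
  MvPolynomial.eval (edgeVec X) f

/-- The polynomials `f n`, for all large `n` of degree at most `D n`, refute
`k n`-colourability in `G(n,1/2)`. -/
def Refutes (k D : ℕ → ℕ) (f : (n : ℕ) → MvPolynomial (Pair n) ℝ) : Prop :=
  (∀ᶠ n in atTop, (f n).totalDegree ≤ D n) ∧
  (∀ᶠ n in atTop, ∀ X : SimpleGraph (Fin n), X.Colorable (k n) → 1 ≤ val (f n) X) ∧
  (∀ᶠ n in atTop, expG n (fun X => val (f n) X) = 0) ∧
  Tendsto (fun n => expG n (fun X => val (f n) X ^ 2)) atTop (𝓝 0)

lemma expG_eq (n : ℕ) (g : SimpleGraph (Fin n) → ℝ) :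
    expG n g = 𝔼 y : Pair n → Bool, g (toG y) := by
  rw [expG, Fintype.expect_eq_sum_div_card, ← Fintype.card_congr (eqG n)]
  congr 1
  exact (Fintype.sum_equiv (eqG n) (fun y => g (toG y)) g (fun y => rfl)).symm

lemma val_toG {n : ℕ} (f : MvPolynomial (Pair n) ℝ) (y : Pair n → Bool) :
    val f (toG y) = MvPolynomial.eval (bvec y) f := by
  unfold val
  congr 2
  funext e
  unfold edgeVec bvec
  simp only [toG_adj]

/-- One value of `n`. -/
lemma one_n (n k D : ℕ) (hD1 : 1 ≤ D) (hnk : n ≤ k ^ 2)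
    (hstar : (520 * (D : ℝ) ^ 5) ^ (46 * D) ≤ n)
    (f : MvPolynomial (Pair n) ℝ) (hdeg : f.totalDegree ≤ D)
    (hcol : ∀ X : SimpleGraph (Fin n), X.Colorable k → 1 ≤ val f X)
    (hmean : expG n (fun X => val f X) = 0) :
    Real.sqrt n ≤ expG n (fun X => val f X ^ 2) := by
  have hX : (0 : ℝ) < (520 * (D : ℝ) ^ 5) ^ (46 * D) := by
    have : (0 : ℝ) < D := by exact_mod_cast hD1
    positivity
  have hn0 : 0 < n := by
    have : (0 : ℝ) < n := lt_of_lt_of_le hX hstar
    exact_mod_cast this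
  have : NeZero k := ⟨by
    rintro rfl
    simp at hnk
    omega⟩
  have hfin := core (k := k) hD1 hnk hstar
    (fun y => MvPolynomial.eval (bvec y) f) ?_ ?_ ?_
  · rw [expG_eq]
    simp only [val_toG]
    exact hfin
  · intro σ y hy
    show 1 ≤ MvPolynomial.eval (bvec y) f
    rw [← val_toG]
    exact hcol _ (toG_colorable σ y hy)
  · rw [expG_eq] at hmean
    simp only [val_toG] at hmean
    exact hmean
  · intro S hS
    exact fh_poly_zero f _ hdeg S hS

/-- There is an absolute constant `c > 0` such that for all large `n` and all `k ≥ √n` every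
polynomial of degree at most `c log n / log log n` in the edge indicators which has mean zero over
`G(n,1/2)` and is at least `1` on all `k`-colourable graphs has second moment at least `√n`.
In particular, for no `k = k(n)` with `k(n) ≥ √n` can `k(n)`-colourability be refuted in
`G(n,1/2)` by polynomials of degree at most `c log n / log log n`. -/
theorem result : ∃ c : ℝ, 0 < c ∧
    (∃ n₀ : ℕ, ∀ n ≥ n₀, ∀ k : ℕ, n ≤ k ^ 2 → ∀ f : MvPolynomial (Pair n) ℝ,
      (f.totalDegree : ℝ) ≤ c * (Real.log n / Real.log (Real.log n)) →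
      (∀ X : SimpleGraph (Fin n), X.Colorable k → 1 ≤ val f X) →
      expG n (fun X => val f X) = 0 → Real.sqrt n ≤ expG n (fun X => val f X ^ 2)) ∧
    ∀ k D : ℕ → ℕ, (∀ᶠ n in atTop, n ≤ k n ^ 2) →
      (∀ᶠ n in atTop, (D n : ℝ) ≤ c * (Real.log n / Real.log (Real.log n))) →
      ¬ ∃ f : (n : ℕ) → MvPolynomial (Pair n) ℝ, Refutes k D f := by
  obtain ⟨n₀, hn₀⟩ := exists_threshold
  have main : ∀ n ≥ n₀, ∀ k : ℕ, n ≤ k ^ 2 → ∀ f : MvPolynomial (Pair n) ℝ,
      (f.totalDegree : ℝ) ≤ 1 / 300 * (Real.log n / Real.log (Real.log n)) →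
      (∀ X : SimpleGraph (Fin n), X.Colorable k → 1 ≤ val f X) →
      expG n (fun X => val f X) = 0 → Real.sqrt n ≤ expG n (fun X => val f X ^ 2) := by
    intro n hn k hk f hdeg hcol hmean
    exact one_n n k (max f.totalDegree 1) (le_max_right _ _) hk (hn₀ n hn _ hdeg) f
      (le_max_left _ _) hcol hmean
  refine ⟨1 / 300, by norm_num, ⟨n₀, main⟩, ?_⟩
  rintro k D hk hD ⟨f, hf1, hf2, hf3, hf4⟩
  have h2 : ∀ᶠ n in atTop, expG n (fun X => val (f n) X ^ 2) < 1 :=
    hf4.eventually (gt_mem_nhds (by norm_num))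
  obtain ⟨n, ⟨⟨⟨h3, h4⟩, h5⟩, h6, h7⟩, e1, e2, e3⟩ := ((((hk.and hD).and h2).and
    ((eventually_ge_atTop n₀).and (eventually_ge_atTop 1))).and
      (hf1.and (hf2.and hf3))).exists
  have h8 : ((f n).totalDegree : ℝ) ≤ 1 / 300 * (Real.log n / Real.log (Real.log n)) := by
    refine le_trans ?_ h4
    exact_mod_cast e1
  have h9 := main n h6 (k n) h3 (f n) h8 e2 e3
  have h10 : (1 : ℝ) ≤ Real.sqrt n := by
    rw [Real.one_le_sqrt]
    exact_mod_cast h7
  linarith

end Pool.Agent.Results.MP_91303d_lc.LogDegree
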