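import Pool.Agent.ColorRef.Poly

/-!
Low-degree hardness of refuting `k`-colourability of `G(n,1/2)` whenever
`log (k / √n)` is much larger than `√(log n)`.
-/

namespace Pool.Agent.Results.MP_91303d_lc.NoLowDegreeRefutation

open Filter Finset BigOperators
open scoped Classical Topology
open Pool.Agent.ColorRef

/-- The vector of edge indicators of a graph on `Fin n`; `Pair n` is the set of pairs
`(u, v)` of vertices with `u < v`. -/
noncomputable def edgeVec {n : ℕ} (X : SimpleGraph (Fin n)) : Pair n → ℝ :=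
  fun e => if X.Adj e.1.1 e.1.2 then 1 else 0

/-- Expectation over `G(n,1/2)`: the average over all graphs on `Fin n`. -/
noncomputable def expG (n : ℕ) (g : SimpleGraph (Fin n) → ℝ) : ℝ :=
  (∑ X : SimpleGraph (Fin n), g X) / (Fintype.card (SimpleGraph (Fin n)) : ℝ)

/-- The value of a polynomial in the edge indicators at a graph. -/
noncomputable def val {n : ℕ} (f : MvPolynomial (Pair n) ℝ) (X : SimpleGraph (Fin n)) : ℝ :=
  MvPolynomial.eval (edgeVec X) f

/-- The polynomials `f n`, for all large `n` of degree at most `D n`, refute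
`k n`-colourability in `G(n,1/2)`. -/
def Refutes (k D : ℕ → ℕ) (f : (n : ℕ) → MvPolynomial (Pair n) ℝ) : Prop :=
  (∀ᶠ n in atTop, (f n).totalDegree ≤ D n) ∧
  (∀ᶠ n in atTop, ∀ X : SimpleGraph (Fin n), X.Colorable (k n) → 1 ≤ val (f n) X) ∧
  (∀ᶠ n in atTop, expG n (fun X => val (f n) X) = 0) ∧
  Tendsto (fun n => expG n (fun X => val (f n) X ^ 2)) atTop (𝓝 0)

lemma expG_eq (n : ℕ) (g : SimpleGraph (Fin n) → ℝ) :
    expG n g = 𝔼 y : Pair n → Bool, g (toG y) := by
  rw [expG, Fintype.expect_eq_sum_div_card, ← Fintype.card_congr (eqG n)]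
  congr 1
  exact (Fintype.sum_equiv (eqG n) (fun y => g (toG y)) g (fun y => rfl)).symm

lemma val_toG {n : ℕ} (f : MvPolynomial (Pair n) ℝ) (y : Pair n → Bool) :
    val f (toG y) = MvPolynomial.eval (bvec y) f := by
  unfold val
  congr 2
  funext e
  unfold edgeVec bvec
  simp only [toG_adj]

/-- One value of `n`. -/
lemma one_n (n k : ℕ) (hn : 6 ≤ n) (s L : ℝ) (hs : s ^ 2 = Real.log n) (hs0 : 1000 ≤ s)
    (hlog : 24 * Real.log s ≤ s) (hL : L = Real.log (k / Real.sqrt n))
    (hL1 : 64 * s ≤ L) (hLlog : 100 * Real.log L ≤ L)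
    (f : MvPolynomial (Pair n) ℝ) (hdeg : f.totalDegree ≤ ⌊L ^ 2 / 1000⌋₊)
    (hcol : ∀ X : SimpleGraph (Fin n), X.Colorable k → 1 ≤ val f X)
    (hmean : expG n (fun X => val f X) = 0) :
    1 / 4 ≤ expG n (fun X => val f X ^ 2) * (L ^ 4 * Real.exp (-(L / 4)) + 18 / n) := by
  have hnR : (6 : ℝ) ≤ n := by exact_mod_cast hn
  have hn0 : (0 : ℝ) < n := by linarith
  have hL0 : 0 < L := by linarith
  have hsq : 0 < Real.sqrt n := Real.sqrt_pos.2 hn0
  have hsqsq : Real.sqrt n ^ 2 = n := Real.sq_sqrt hn0.le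
  by_cases hkn : n ≤ k
  · -- every graph is colourable
    exfalso
    have h1 : ∀ X : SimpleGraph (Fin n), 1 ≤ val f X := by
      intro X
      apply hcol
      have h2 := X.colorable_of_fintype
      rw [Fintype.card_fin] at h2
      exact h2.mono hkn
    rw [expG_eq] at hmean
    have h3 : (1 : ℝ) ≤ 𝔼 y : Pair n → Bool, val f (toG y) := by
      calc (1 : ℝ) = 𝔼 _y : Pair n → Bool, (1 : ℝ) := by simp
        _ ≤ _ := expect_le_expect (fun y _ => h1 _)
    linarith
  · push Not at hkn
    have hk0 : (0 : ℝ) < k := by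
      rcases Nat.eq_zero_or_pos k with h | h
      · exfalso
        rw [h] at hL
        simp at hL
        linarith
      · exact_mod_cast h
    have hkL : (k : ℝ) ^ 2 = n * Real.exp (2 * L) := by
      have h1 : Real.exp L = k / Real.sqrt n := by
        rw [hL, Real.exp_log (by positivity)]
      have h2 : Real.exp (2 * L) = (k / Real.sqrt n) ^ 2 := by
        rw [← h1, ← Real.exp_nat_mul]; norm_num
      rw [h2, div_pow, hsqsq]
      field_simp
    have hL2 : L ≤ s ^ 2 := by
      rw [hs, hL]
      apply Real.log_le_log (by positivity)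
      rw [div_le_iff₀ hsq]
      have h1 : (k : ℝ) ≤ n := by exact_mod_cast hkn.le
      have h2 : (1 : ℝ) ≤ Real.sqrt n := by
        rw [Real.one_le_sqrt]; linarith
      nlinarith
    have : NeZero k := ⟨by
      rintro rfl
      simp at hk0⟩
    have hD1 : 1 ≤ ⌊L ^ 2 / 1000⌋₊ := by
      apply Nat.le_floor
      push_cast
      rw [le_div_iff₀ (by norm_num)]
      nlinarith
    have hfin := asym (k := k) hn s L hs hs0 hlog hkL hL1 hL2 hLlog ⌊L ^ 2 / 1000⌋₊ le_rfl hD1
      (fun y => MvPolynomial.eval (bvec y) f) ?_ ?_ ?_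
    · rw [expG_eq]
      simp only [val_toG]
      exact hfin
    · intro σ y hy
      show 1 ≤ MvPolynomial.eval (bvec y) f
      rw [← val_toG]
      exact hcol _ (toG_colorable σ y hy)
    · rw [expG_eq] at hmean
      simp only [val_toG] at hmean
      exact hmean
    · intro S hS
      exact fh_poly_zero f _ hdeg S hS

/-- Let `log (k n / √n) / √(log n) → ∞` and put `D n = ⌊(log (k n / √n))² / 1000⌋`, so that
`D n / log n → ∞`. Then no polynomials of degree at most `D n` refute `k n`-colourability in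
`G(n,1/2)`. Moreover the second moment of every polynomial of degree at most `D n` which has mean
zero and is at least `1` on the `k n`-colourable graphs tends to infinity, uniformly. -/
theorem result (k : ℕ → ℕ)
    (hk : Tendsto (fun n : ℕ => Real.log (k n / Real.sqrt n) / Real.sqrt (Real.log n))
      atTop atTop) :
    ∃ D : ℕ → ℕ, (∀ n, D n = ⌊(Real.log (k n / Real.sqrt n)) ^ 2 / 1000⌋₊) ∧
      Tendsto (fun n => (D n : ℝ) / Real.log n) atTop atTop ∧
      (¬ ∃ f : (n : ℕ) → MvPolynomial (Pair n) ℝ, Refutes k D f) ∧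
      (∀ C : ℝ, ∀ᶠ n in atTop, ∀ f : MvPolynomial (Pair n) ℝ, f.totalDegree ≤ D n →
        (∀ X : SimpleGraph (Fin n), X.Colorable (k n) → 1 ≤ val f X) →
        expG n (fun X => val f X) = 0 → C ≤ expG n (fun X => val f X ^ 2)) := by
  refine ⟨fun n => ⌊(Real.log (k n / Real.sqrt n)) ^ 2 / 1000⌋₊, fun n => rfl, ?_, ?_⟩
  · -- growth of the degree
    have hln : Tendsto (fun n : ℕ => Real.log n) atTop atTop :=
      Real.tendsto_log_atTop.comp tendsto_natCast_atTop_atTop
    rw [tendsto_atTop]
    intro B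
    have h1 := (tendsto_atTop.1 hk) (Real.sqrt (1000 * (|B| + 1)))
    filter_upwards [h1, hln.eventually_ge_atTop 1] with n hn1 hn2
    have hl0 : (0 : ℝ) < Real.log n := by linarith
    have hsq : 0 < Real.sqrt (Real.log n) := Real.sqrt_pos.2 hl0
    set L := Real.log (k n / Real.sqrt n) with hL
    have h2 : 1000 * (|B| + 1) * Real.log n ≤ L ^ 2 := by
      rw [le_div_iff₀ hsq] at hn1
      have h3 : (Real.sqrt (1000 * (|B| + 1)) * Real.sqrt (Real.log n)) ^ 2 ≤ L ^ 2 :=
        pow_le_pow_left₀ (by positivity) hn1 2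
      rwa [mul_pow, Real.sq_sqrt (by positivity), Real.sq_sqrt hl0.le] at h3
    rw [le_div_iff₀ hl0]
    have h4 : L ^ 2 / 1000 - 1 ≤ (⌊L ^ 2 / 1000⌋₊ : ℝ) := by
      have := Nat.lt_floor_add_one (L ^ 2 / 1000)
      linarith
    have h5 : (|B| + 1) * Real.log n ≤ L ^ 2 / 1000 := by
      rw [le_div_iff₀ (by norm_num)]
      linarith
    have h6 : B * Real.log n ≤ |B| * Real.log n :=
      mul_le_mul_of_nonneg_right (le_abs_self B) hl0.le
    nlinarith
  · have hln : Tendsto (fun n : ℕ => Real.log n) atTop atTop :=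
      Real.tendsto_log_atTop.comp tendsto_natCast_atTop_atTop
    have hst : Tendsto (fun n : ℕ => Real.sqrt (Real.log n)) atTop atTop :=
      Real.tendsto_sqrt_atTop.comp hln
    have hLt : Tendsto (fun n : ℕ => Real.log (k n / Real.sqrt n)) atTop atTop := by
      have h1 := hk.atTop_mul_atTop₀ hst
      refine h1.congr' ?_
      filter_upwards [hst.eventually_gt_atTop 0] with n hn
      field_simp
    have hE : Tendsto (fun n : ℕ => (Real.log (k n / Real.sqrt n)) ^ 4 *
        Real.exp (-(Real.log (k n / Real.sqrt n) / 4)) + 18 / (n : ℝ)) atTop (𝓝 (0 + 0)) := by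
      apply Tendsto.add
      · have h2 : Tendsto (fun x : ℝ => x ^ 4 * Real.exp (-(x / 4))) atTop (𝓝 0) := by
          have h3 := (Real.tendsto_pow_mul_exp_neg_atTop_nhds_zero 4).comp
            (tendsto_id.atTop_div_const (by norm_num : (0 : ℝ) < 4))
          have h4 := h3.const_mul (256 : ℝ)
          rw [mul_zero] at h4
          refine h4.congr ?_
          intro x
          simp only [Function.comp, id]
          ring
        exact h2.comp hLt
      · exact tendsto_const_nhds.div_atTop tendsto_natCast_atTop_atTop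
    rw [add_zero] at hE
    have hlogs : ∀ᶠ x : ℝ in atTop, 100 * Real.log x ≤ x := by
      have h1 := Real.isLittleO_log_id_atTop.bound (by norm_num : (0 : ℝ) < 1 / 100)
      filter_upwards [h1, eventually_ge_atTop 1] with x hx hx1
      have h2 : 0 ≤ Real.log x := Real.log_nonneg hx1
      rw [Real.norm_of_nonneg h2] at hx
      simp only [id] at hx
      rw [Real.norm_of_nonneg (by linarith : (0 : ℝ) ≤ x)] at hx
      linarith
    have main : ∀ C : ℝ, ∀ᶠ n in atTop, ∀ f : MvPolynomial (Pair n) ℝ,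
        f.totalDegree ≤ ⌊(Real.log (k n / Real.sqrt n)) ^ 2 / 1000⌋₊ →
        (∀ X : SimpleGraph (Fin n), X.Colorable (k n) → 1 ≤ val f X) →
        expG n (fun X => val f X) = 0 → C ≤ expG n (fun X => val f X ^ 2) := by
      intro C
      have hC : (0 : ℝ) < 1 / (4 * (|C| + 1)) := by positivity
      filter_upwards [eventually_ge_atTop 6, hst.eventually_ge_atTop 1000,
        hst.eventually hlogs, (tendsto_atTop.1 hk) 64, hLt.eventually hlogs,
        hE.eventually (ge_mem_nhds hC), hln.eventually_ge_atTop 0]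
        with n hn hs0 hlog hL1 hLlog hsmall hl0 f hdeg hcol hmean
      have hs : Real.sqrt (Real.log n) ^ 2 = Real.log n := Real.sq_sqrt hl0
      have hspos : 0 < Real.sqrt (Real.log n) := by linarith
      have hL1' : 64 * Real.sqrt (Real.log n) ≤ Real.log (k n / Real.sqrt n) := by
        rwa [le_div_iff₀ hspos] at hL1
      have hlog' : 24 * Real.log (Real.sqrt (Real.log n)) ≤ Real.sqrt (Real.log n) := by
        have : 0 ≤ Real.log (Real.sqrt (Real.log n)) := Real.log_nonneg (by linarith)
        linarith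
      have h1 := one_n n (k n) hn _ _ hs hs0 hlog' rfl hL1' hLlog f hdeg hcol hmean
      have hnn : 0 ≤ expG n (fun X => val f X ^ 2) := by
        rw [expG_eq]
        exact expect_nonneg (fun y _ => sq_nonneg _)
      have h2 : 1 / 4 ≤ expG n (fun X => val f X ^ 2) * (1 / (4 * (|C| + 1))) :=
        h1.trans (mul_le_mul_of_nonneg_left hsmall hnn)
      have h3 : |C| + 1 ≤ expG n (fun X => val f X ^ 2) := by
        rw [mul_one_div, div_le_div_iff₀ (by norm_num) (by positivity)] at h2
        linarith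
      have h4 := le_abs_self C
      linarith
    refine ⟨?_, main⟩
    rintro ⟨f, hf1, hf2, hf3, hf4⟩
    have h1 := main 1
    have h2 : ∀ᶠ n in atTop, expG n (fun X => val (f n) X ^ 2) < 1 :=
      hf4.eventually (gt_mem_nhds (by norm_num))
    obtain ⟨n, ⟨hn1, hn2⟩, hn3, hn4, hn5⟩ :=
      ((h1.and h2).and (hf1.and (hf2.and hf3))).exists
    have := hn1 (f n) hn3 hn4 hn5
    linarith

end Pool.Agent.Results.MP_91303d_lc.NoLowDegreeRefutation
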