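import Pool.Agent.ColorUp.CoreUp

/-!
Refutation of `k`-colourability of `G(n,1/2)` by polynomials of degree
`O(log n * (1 + log (k / √n)))`.
-/

namespace Pool.Agent.Results.MP_91303d_lc.RefutingDegree

open Filter Finset BigOperators
open scoped Classical Topology
open Pool.Agent.ColorRef
open Pool.Agent.ColorUp

/-- The vector of edge indicators of a graph on `Fin n`; `Pair n` is the set of pairs
`(u, v)` of vertices with `u < v`. -/
noncomputable def edgeVec {n : ℕ} (X : SimpleGraph (Fin n)) : Pair n → ℝ :=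
  fun e => if X.Adj e.1.1 e.1.2 then 1 else 0

/-- Expectation over `G(n,1/2)`: the average over all graphs on `Fin n`. -/
noncomputable def expG (n : ℕ) (g : SimpleGraph (Fin n) → ℝ) : ℝ :=
  (∑ X : SimpleGraph (Fin n), g X) / (Fintype.card (SimpleGraph (Fin n)) : ℝ)

/-- The value of a polynomial in the edge indicators at a graph. -/
noncomputable def val {n : ℕ} (f : MvPolynomial (Pair n) ℝ) (X : SimpleGraph (Fin n)) : ℝ :=
  MvPolynomial.eval (edgeVec X) f

/-- The polynomials `f n`, for all large `n` of degree at most `D n`, refute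
`k n`-colourability in `G(n,1/2)`. -/
def Refutes (k : ℕ → ℕ) (D : ℕ → ℝ) (f : (n : ℕ) → MvPolynomial (Pair n) ℝ) : Prop :=
  (∀ᶠ n in atTop, ((f n).totalDegree : ℝ) ≤ D n) ∧
  (∀ᶠ n in atTop, ∀ X : SimpleGraph (Fin n), X.Colorable (k n) → 1 ≤ val (f n) X) ∧
  (∀ᶠ n in atTop, expG n (fun X => val (f n) X) = 0) ∧
  Tendsto (fun n => expG n (fun X => val (f n) X ^ 2)) atTop (𝓝 0)

lemma expG_eq (n : ℕ) (g : SimpleGraph (Fin n) → ℝ) :
    expG n g = 𝔼 y : Pair n → Bool, g (toG y) := by
  rw [expG, Fintype.expect_eq_sum_div_card, ← Fintype.card_congr (eqG n)]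
  congr 1
  exact (Fintype.sum_equiv (eqG n) (fun y => g (toG y)) g (fun y => rfl)).symm

lemma val_toG {n : ℕ} (f : MvPolynomial (Pair n) ℝ) (y : Pair n → Bool) :
    val f (toG y) = MvPolynomial.eval (bvec y) f := by
  unfold val
  congr 2
  funext e
  unfold edgeVec bvec
  simp only [toG_adj]

/-- For every `ε > 0` there is `C` such that for every `k = k(n) ≤ n^(1-ε)` the
`k(n)`-colourability of `G(n,1/2)` is refuted by polynomials of degree at most
`C log n (1 + log (max 1 (k(n)/√n)))`. -/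
theorem result (ε : ℝ) (hε : 0 < ε) : ∃ C : ℝ, 0 < C ∧
    ∀ k : ℕ → ℕ, (∀ᶠ n : ℕ in atTop, (k n : ℝ) ≤ (n : ℝ) ^ (1 - ε)) →
      ∃ f : (n : ℕ) → MvPolynomial (Pair n) ℝ,
        Refutes k (fun n => C * (Real.log n * (1 + Real.log (max 1 (k n / Real.sqrt n))))) f := by
  have hε' : 0 < min ε 1 := lt_min hε one_pos
  obtain ⟨C, hC, n₀, hpar⟩ := params (min ε 1) hε'
  refine ⟨C, hC, ?_⟩
  intro k hk
  have key : ∀ᶠ n : ℕ in atTop, ∃ p : MvPolynomial (Pair n) ℝ,
      ((p.totalDegree : ℝ) ≤
        C * (Real.log n * (1 + Real.log (max 1 (k n / Real.sqrt n))))) ∧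
      (∀ X : SimpleGraph (Fin n), X.Colorable (k n) → 1 ≤ val p X) ∧
      expG n (fun X => val p X) = 0 ∧ expG n (fun X => val p X ^ 2) ≤ 4 / n := by
    filter_upwards [hk, eventually_ge_atTop n₀, eventually_ge_atTop 4] with n h1 h2 h3
    have hn4 : (4 : ℝ) ≤ n := by exact_mod_cast h3
    have hn1 : (1 : ℝ) ≤ n := by linarith
    have h4 : ((max (k n) 1 : ℕ) : ℝ) ≤ (n : ℝ) ^ (1 - min ε 1) := by
      rw [Nat.cast_max, Nat.cast_one]
      apply max_le
      · refine h1.trans ?_
        apply Real.rpow_le_rpow_of_exponent_le hn1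
        have := min_le_left ε 1
        linarith
      · apply Real.one_le_rpow hn1
        have := min_le_right ε 1
        linarith
    obtain ⟨t, j, m, M, θ, s, p1, p2, p3, p4, p5, p6, p7, p8, p9, p10⟩ :=
      hpar n h2 (max (k n) 1) (le_max_right _ _) h4
    obtain ⟨p, q1, q2, q3, q4⟩ := one_up h3 (max (k n) 1) t j m M θ s p1 p2 p3 p4 p5 p6 p7 p8 p9
    refine ⟨p, ?_, ?_, ?_, ?_⟩
    · have h5 : ((p.totalDegree : ℕ) : ℝ) ≤ (2 : ℝ) ^ j * (2 * t + 1) := by
        exact_mod_cast q1
      refine h5.trans (p10.trans ?_)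
      apply mul_le_mul_of_nonneg_left _ hC.le
      apply mul_le_mul_of_nonneg_left _ (Real.log_nonneg hn1)
      have hsq : (1 : ℝ) ≤ Real.sqrt n := by rw [Real.one_le_sqrt]; exact hn1
      have h6 : max (1 : ℝ) ((max (k n) 1 : ℕ) / Real.sqrt n) ≤ max 1 (k n / Real.sqrt n) := by
        apply max_le (le_max_left _ _)
        rw [Nat.cast_max, Nat.cast_one, ← max_div_div_right (by linarith)]
        apply max_le (le_max_right _ _)
        refine le_trans ?_ (le_max_left _ _)
        rw [div_le_one (by linarith)]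
        exact hsq
      have h7 := Real.log_le_log (lt_of_lt_of_le one_pos (le_max_left _ _)) h6
      linarith
    · intro X hX
      obtain ⟨y, rfl⟩ : ∃ y, toG y = X := ⟨(eqG n).symm X, (eqG n).apply_symm_apply X⟩
      rw [val_toG]
      exact q2 y (hX.mono (le_max_left _ _))
    · rw [expG_eq]
      simp only [val_toG]
      exact q3
    · rw [expG_eq]
      simp only [val_toG]
      exact q4
  classical
  refine ⟨fun n => if h : ∃ p : MvPolynomial (Pair n) ℝ,
      ((p.totalDegree : ℝ) ≤
        C * (Real.log n * (1 + Real.log (max 1 (k n / Real.sqrt n))))) ∧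
      (∀ X : SimpleGraph (Fin n), X.Colorable (k n) → 1 ≤ val p X) ∧
      expG n (fun X => val p X) = 0 ∧ expG n (fun X => val p X ^ 2) ≤ 4 / n
      then h.choose else 0, ?_, ?_, ?_, ?_⟩
  · filter_upwards [key] with n hn
    rw [dif_pos hn]
    exact hn.choose_spec.1
  · filter_upwards [key] with n hn
    rw [dif_pos hn]
    exact hn.choose_spec.2.1
  · filter_upwards [key] with n hn
    rw [dif_pos hn]
    exact hn.choose_spec.2.2.1
  · have hlim : Tendsto (fun n : ℕ => (4 : ℝ) / n) atTop (𝓝 0) :=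
      tendsto_const_nhds.div_atTop tendsto_natCast_atTop_atTop
    refine squeeze_zero' ?_ ?_ hlim
    · apply Eventually.of_forall
      intro n
      rw [expG_eq]
      exact expect_nonneg (fun y _ => sq_nonneg _)
    · filter_upwards [key] with n hn
      rw [dif_pos hn]
      exact hn.choose_spec.2.2.2

end Pool.Agent.Results.MP_91303d_lc.RefutingDegree
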